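import Pool.Agent.N17.BZ.Cram

set_option autoImplicit false
set_option linter.unusedSectionVars false

open scoped InnerProductSpace InnerProduct ENNReal

/-! Regular alternating elements. -/

namespace Pool.Agent.N17.BZ

open Pool.Agent.W649.ZL

universe u

variable {G : Type u} [Group G]

theorem exists_det_ne_zero {n : ℕ} (v : Fin n → (G →₀ ℂ)) (hv : LinearIndependent ℂ v) :
    ∃ x : Fin n → G, (Matrix.of fun j i => v j (x i)).det ≠ 0 := by
  classical
  -- the vectors of values
  let w : G → (Fin n → ℂ) := fun x j => v j x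
  have hspan : Submodule.span ℂ (Set.range w) = ⊤ := by
    by_contra hne
    obtain ⟨f, hf0, hf⟩ := Submodule.exists_le_ker_of_lt_top _ (lt_top_iff_ne_top.2 hne)
    apply hf0
    have h1 : ∑ j, f (Pi.single j 1) • v j = 0 := by
      ext x
      rw [Finsupp.finsetSum_apply]
      have h2 : f (w x) = 0 := hf (Submodule.subset_span ⟨x, rfl⟩)
      have h3 : w x = ∑ j, (v j x) • (Pi.single j (1 : ℂ) : Fin n → ℂ) := by
        ext i
        rw [Finset.sum_apply, Finset.sum_eq_single i]
        · simp [w]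
        · intro j _ hj
          simp [Pi.single_eq_of_ne' hj]
        · intro h; exact absurd (Finset.mem_univ i) h
      rw [h3, map_sum] at h2
      rw [Finsupp.coe_zero, Pi.zero_apply, ← h2]
      refine Finset.sum_congr rfl fun j _ => ?_
      rw [map_smul, Finsupp.smul_apply, smul_eq_mul, smul_eq_mul, mul_comm]
    have h4 := Fintype.linearIndependent_iff.1 hv _ h1
    refine LinearMap.pi_ext' fun j => ?_
    ext
    simpa using h4 j
  obtain ⟨κ, a, ha, hsp, hli⟩ := exists_linearIndependent' ℂ w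
  have hfin : Finite κ := hli.finite
  have : Fintype κ := Fintype.ofFinite κ
  have hb : Fintype.card κ = n := by
    have b := Module.Basis.mk hli (by rw [hsp, hspan])
    rw [← Module.finrank_eq_card_basis b]
    simp
  let e : Fin n ≃ κ := (Fintype.equivFinOfCardEq hb).symm
  refine ⟨fun i => a (e i), ?_⟩
  have h5 : IsUnit (Matrix.of fun j i => v j (a (e i)) : Matrix (Fin n) (Fin n) ℂ) := by
    rw [← Matrix.linearIndependent_cols_iff_isUnit]
    exact hli.comp e e.injective
  exact ((Matrix.isUnit_iff_isUnit_det _).1 h5).ne_zero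

theorem alt_ne_zero {n : ℕ} (v : Fin n → (G →₀ ℂ)) (hv : LinearIndependent ℂ v) : alt v ≠ 0 := by
  obtain ⟨x, hx⟩ := exists_det_ne_zero v hv
  intro h
  apply hx
  rw [← alt_apply, h]
  rfl

theorem alt_support {n : ℕ} (v : Fin n → (G →₀ ℂ)) (x : Fin n → G) (hx : x ∈ (alt v).support)
    (i : Fin n) : ∃ j, x i ∈ (v j).support := by
  by_contra hcon
  push Not at hcon
  apply Finsupp.mem_support_iff.1 hx
  rw [alt_apply]
  apply Matrix.det_eq_zero_of_column_eq_zero i
  intro j
  exact Finsupp.notMem_support_iff.1 (hcon j)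

/-- powers of a locally indicable group are locally indicable -/
theorem LI_pi {H : Subgroup G} (hH : LI H) (n : ℕ) :
    LI (Subgroup.pi Set.univ (fun _ : Fin n => H)) := by
  intro K hK hKne
  obtain ⟨k, hk, hk1⟩ := (Subgroup.ne_bot_iff_exists_ne_one).1 hKne |>.elim
    fun a ha => (⟨a.1, a.2, fun h => ha (Subtype.ext h)⟩ :
      ∃ k ∈ K, k ≠ 1)
  have h1 : ∃ i, (k : Fin n → G) i ≠ 1 := by
    by_contra hcon
    push Not at hcon
    exact hk1 (Subtype.ext (funext hcon))
  obtain ⟨i, hi⟩ := h1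
  let p : Subgroup.pi Set.univ (fun _ : Fin n => H) →* H :=
    { toFun := fun x => ⟨(x : Fin n → G) i, (Subgroup.mem_pi _).1 x.2 i (Set.mem_univ i)⟩
      map_one' := rfl
      map_mul' := fun _ _ => rfl }
  have hfg : (K.map p).FG := by
    classical
    obtain ⟨S, hS⟩ := hK
    exact ⟨S.image p, by rw [Finset.coe_image, ← MonoidHom.map_closure, hS]⟩
  have hne : K.map p ≠ ⊥ := by
    intro h0
    have h2 : p k ∈ K.map p := ⟨k, hk, rfl⟩
    rw [h0, Subgroup.mem_bot] at h2
    exact hi (congrArg Subtype.val h2)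
  obtain ⟨φ, h, hh⟩ := hH _ hfg hne
  obtain ⟨k', hk'⟩ := MonoidHom.subgroupMap_surjective p K h
  refine ⟨φ.comp (p.subgroupMap K), k', ?_⟩
  rw [MonoidHom.comp_apply, hk']
  exact hh

/-- infinite cyclic groups are locally indicable -/
theorem LI_zpowers {g : G} (hg : ¬ IsOfFinOrder g) : LI (Subgroup.zpowers g) := by
  have hinj : Function.Injective (fun n : ℤ => g ^ n) := injective_zpow_iff_not_isOfFinOrder.2 hg
  let f : Multiplicative ℤ →* Subgroup.zpowers g :=
    { toFun := fun n => ⟨g ^ (Multiplicative.toAdd n), ⟨_, rfl⟩⟩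
      map_one' := Subtype.ext (by simp)
      map_mul' := fun a b => Subtype.ext (by simp [zpow_add]) }
  have hf : Function.Bijective f := by
    constructor
    · intro a b hab
      apply Multiplicative.toAdd.injective
      exact hinj (congrArg Subtype.val hab)
    · rintro ⟨x, m, hm⟩
      exact ⟨Multiplicative.ofAdd m, Subtype.ext hm⟩
  let e := (MulEquiv.ofBijective f hf).symm
  intro K _ hKne
  obtain ⟨⟨k, hk⟩, hk1⟩ := Subgroup.ne_bot_iff_exists_ne_one.1 hKne
  refine ⟨e.toMonoidHom.comp K.subtype, ⟨k, hk⟩, ?_⟩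
  intro h
  apply hk1
  have h1 : e k = 1 := h
  have h2 : k = 1 := by
    apply e.injective
    rw [h1, map_one]
  exact Subtype.ext h2

/-- the alternating element is regular -/
theorem alt_injective {n : ℕ} (v : Fin n → (G →₀ ℂ)) (hv : LinearIndependent ℂ v) (t : G)
    (H : Subgroup G) (hH : LI H) (hs : ∀ j, ∀ x ∈ (v j).support, t⁻¹ * x ∈ H) :
    Function.Injective (cop (alt v)) := by
  refine LI_coset_injective (fun _ => t) _ (LI_pi hH n) (alt v) ?_ (alt_ne_zero v hv)
  intro x hx
  rw [Subgroup.mem_pi]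
  intro i _
  obtain ⟨j, hj⟩ := alt_support v x hx i
  exact hs j _ hj

/-- the dimension of the kernel -/
noncomputable abbrev kv (α : G →₀ ℂ) : ℝ :=
  vd (LinearMap.ker (cop α : EE G Unit →ₗ[ℂ] EE G Unit))

theorem kv_le_one (α : G →₀ ℂ) : kv α ≤ 1 := by
  have := vd_le_card (G := G) (LinearMap.ker (cop α : EE G Unit →ₗ[ℂ] EE G Unit))
  simpa using this

theorem kv_nonneg (α : G →₀ ℂ) : 0 ≤ kv α := vd_nonneg _

/-- the inequality for finite sets of points -/
theorem bezout_finset {n : ℕ} (v : Fin n → (G →₀ ℂ)) (β : G →₀ ℂ) (S : Finset (Fin n → ℂ)) :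
    ∑ l ∈ S, kv (β + ∑ j, l j • v j) ^ n ≤ 1 + (S.card - 1 : ℝ) * kv (alt v) := by
  classical
  rcases Nat.eq_zero_or_pos S.card with h0 | hpos
  · rw [Finset.card_eq_zero] at h0
    subst h0
    have := kv_le_one (alt v)
    simp only [Finset.sum_empty, Finset.card_empty, Nat.cast_zero]
    linarith
  · let e : Fin S.card ≃ S := S.equivFin.symm
    have h1 := bezout v β (fun b => (e b : Fin n → ℂ))
      (fun a b hab => e.injective (Subtype.ext hab)) hpos
    have h2 : ∑ l ∈ S, kv (β + ∑ j, l j • v j) ^ n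
        = ∑ b, kv (β + ∑ j, (e b : Fin n → ℂ) j • v j) ^ n := by
      rw [← Finset.sum_coe_sort S, ← e.sum_comp]
    rw [h2]
    exact h1

theorem bezout_of_injective {n : ℕ} (v : Fin n → (G →₀ ℂ))
    (hv : Function.Injective (cop (alt v))) (β : G →₀ ℂ) (S : Finset (Fin n → ℂ)) :
    ∑ l ∈ S, kv (β + ∑ j, l j • v j) ^ n ≤ 1 := by
  have h1 := bezout_finset v β S
  have h2 : kv (alt v) = 0 := vd_ker_of_injective _ hv
  rw [h2, mul_zero, add_zero] at h1
  exact h1

end Pool.Agent.N17.BZ
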