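import Pool.Agent.N17.BZ.Rel
import Pool.Agent.W649.ZL.Supp
import Pool.Agent.TH57.AZ.Wedge

set_option autoImplicit false
set_option linter.unusedSectionVars false

open scoped InnerProductSpace InnerProduct ENNReal

/-! Alternating elements of `ℂ[Gⁿ]` and Cramer's rule on tensor powers of kernels. -/

namespace Pool.Agent.N17.BZ

open Pool.Agent.W649.ZL

universe u

variable {G : Type u} [Group G]

/-- The alternating element `v_1 ∧ ⋯ ∧ v_n`: its coefficient at `(x_1, …, x_n)` is the determinant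
of the matrix `(v_j(x_i))`. -/
noncomputable def alt {n : ℕ} (v : Fin n → (G →₀ ℂ)) : (Fin n → G) →₀ ℂ := by
  classical
  exact Finsupp.onFinset (Fintype.piFinset fun _ => Finset.univ.biUnion fun j => (v j).support)
    (fun x => (Matrix.of fun j i => v j (x i)).det) (by
      intro x hx
      rw [Fintype.mem_piFinset]
      intro i
      by_contra hi
      apply hx
      apply Matrix.det_eq_zero_of_column_eq_zero i
      intro j
      by_contra hj
      exact hi (Finset.mem_biUnion.2 ⟨j, Finset.mem_univ j, Finsupp.mem_support_iff.2 hj⟩))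

theorem alt_apply {n : ℕ} (v : Fin n → (G →₀ ℂ)) (x : Fin n → G) :
    alt v x = (Matrix.of fun j i => v j (x i)).det := rfl

theorem alt_sum {n : ℕ} (v : Fin n → (G →₀ ℂ)) (F : Fin n → G → ℂ) :
    (alt v).sum (fun x c => c * ∏ i, F i (x i))
      = (Matrix.of fun j i => (v j).sum (fun k c => c * F i k)).det := by
  classical
  set T : Finset G := Finset.univ.biUnion fun j => (v j).support with hT
  have h1 : (alt v).support ⊆ Fintype.piFinset fun _ => T := Finsupp.support_onFinset_subset
  rw [Finsupp.sum_of_support_subset _ h1 _ (by intros; simp)]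
  have h2 : ∀ j i, (v j).sum (fun k c => c * F i k) = ∑ k ∈ T, v j k * F i k := by
    intro j i
    have h3 : (v j).support ⊆ T := fun x hx => Finset.mem_biUnion.2 ⟨j, Finset.mem_univ j, hx⟩
    rw [Finsupp.sum_of_support_subset _ h3 _ (by intros; simp)]
  simp only [h2, alt_apply, Matrix.det_apply', Matrix.of_apply, Finset.sum_mul]
  rw [Finset.sum_comm]
  refine Finset.sum_congr rfl fun σ _ => ?_
  rw [Finset.prod_univ_sum, Finset.mul_sum]
  refine Finset.sum_congr rfl fun x _ => ?_
  rw [mul_assoc, ← Finset.prod_mul_distrib]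

open Pool.Agent.TH57.AZ in
theorem cop_alt_tp {n : ℕ} (v : Fin n → (G →₀ ℂ)) (u : lp (fun _ : G => ℂ) 2)
    (y : Fin n → G) :
    cop (alt v) (toU (tp n u)) (y, ())
      = (Matrix.of fun j i => cop (v j) (toU u) (y i, ())).det := by
  rw [cop_apply]
  have h1 : ∀ k : Fin n → G, toU (tp n u) (k⁻¹ * y, ()) = ∏ i, u ((k i)⁻¹ * y i) :=
    fun k => rfl
  simp only [h1]
  have h2 := alt_sum v (fun i k => u (k⁻¹ * y i))
  rw [Finsupp.sum] at h2
  rw [h2]
  congr 1
  ext j i
  rw [Matrix.of_apply, Matrix.of_apply, cop_apply]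
  rfl

open Pool.Agent.TH57.AZ in
/-- **Cramer's rule.** -/
theorem cramer {n : ℕ} (v : Fin n → (G →₀ ℂ)) (β : G →₀ ℂ) (l : Fin n → ℂ)
    (u : lp (fun _ : G => ℂ) 2) (hu : cop (β + ∑ j, l j • v j) (toU u) = 0) (m : Fin n) :
    cop (alt (Function.update v m β)) (toU (tp n u)) = -(l m) • cop (alt v) (toU (tp n u)) := by
  classical
  ext ⟨y, ⟨⟩⟩
  change _ = -(l m) * cop (alt v) (toU (tp n u)) (y, ())
  rw [cop_alt_tp, cop_alt_tp]
  set M : Matrix (Fin n) (Fin n) ℂ := Matrix.of fun j i => cop (v j) (toU u) (y i, ()) with hM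
  have h1 : (Matrix.of fun j i => cop (Function.update v m β j) (toU u) (y i, ()))
      = M.updateRow m (∑ j, (-(l j)) • M j) := by
    ext j i
    rw [Matrix.of_apply, Matrix.updateRow_apply]
    by_cases hj : j = m
    · subst hj
      rw [if_pos rfl, Function.update_self]
      have h2 := congrArg (fun f : EE G Unit => f (y i, ())) hu
      simp only at h2
      rw [map_add, map_sum] at h2
      have h3 : (cop β + ∑ j, cop (l j • v j) : EE G Unit →L[ℂ] EE G Unit) (toU u)
          = cop β (toU u) + ∑ j, l j • cop (v j) (toU u) := by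
        change cop β (toU u) + (∑ j, cop (l j • v j) : EE G Unit →L[ℂ] EE G Unit) (toU u) = _
        rw [sum_apply]
        congr 1
        refine Finset.sum_congr rfl fun j _ => ?_
        rw [map_smul]; rfl
      rw [h3] at h2
      have h4 : cop β (toU u) (y i, ()) + ∑ j, l j * cop (v j) (toU u) (y i, ()) = 0 := by
        have h5 : (∑ j, l j • cop (v j) (toU u) : EE G Unit) (y i, ())
            = ∑ j, l j * cop (v j) (toU u) (y i, ()) := by
          rw [sum_apply_EE]; rfl
        rw [← h5]; exact h2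
      rw [Finset.sum_apply]
      have h6 : ∀ j, ((-(l j)) • M j) i = -(l j * cop (v j) (toU u) (y i, ())) := by
        intro j
        change (-(l j)) * cop (v j) (toU u) (y i, ()) = _
        ring
      simp only [h6, Finset.sum_neg_distrib]
      exact eq_neg_of_add_eq_zero_left h4
    · rw [if_neg hj, Function.update_of_ne hj]
      rfl
  rw [h1, Matrix.det_updateRow_sum, smul_eq_mul]

/-- the eigenspace of the point `l` -/
noncomputable def Eig {n : ℕ} (v : Fin n → (G →₀ ℂ)) (β : G →₀ ℂ) (l : Fin n → ℂ) :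
    Submodule ℂ (EE (Fin n → G) Unit) :=
  ⨅ m, LinearMap.ker ((cop (alt (Function.update v m β)) + l m • cop (alt v) :
    EE (Fin n → G) Unit →L[ℂ] EE (Fin n → G) Unit) : EE (Fin n → G) Unit →ₗ[ℂ] EE (Fin n → G) Unit)

theorem mem_Eig {n : ℕ} (v : Fin n → (G →₀ ℂ)) (β : G →₀ ℂ) (l : Fin n → ℂ)
    (F : EE (Fin n → G) Unit) : F ∈ Eig v β l ↔
      ∀ m, cop (alt (Function.update v m β)) F = -(l m) • cop (alt v) F := by
  unfold Eig
  rw [Submodule.mem_iInf]
  refine forall_congr' fun m => ?_
  change cop (alt (Function.update v m β)) F + l m • cop (alt v) F = 0 ↔ _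
  rw [neg_smul, eq_neg_iff_add_eq_zero]

theorem Eig_closed {n : ℕ} (v : Fin n → (G →₀ ℂ)) (β : G →₀ ℂ) (l : Fin n → ℂ) :
    IsClosed (Eig v β l : Set (EE (Fin n → G) Unit)) := by
  unfold Eig
  rw [Submodule.coe_iInf]
  exact isClosed_iInter fun m => ContinuousLinearMap.isClosed_ker _

theorem Eig_inv {n : ℕ} (v : Fin n → (G →₀ ℂ)) (β : G →₀ ℂ) (l : Fin n → ℂ) :
    W649.ZL.Inv (Eig v β l) := by
  intro k F hF
  rw [mem_Eig] at hF ⊢
  intro m
  rw [cop_eqv, cop_eqv, hF m, tr_smul]

/-- the dimension of a closed subspace is bounded below by any of its vectors -/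
theorem vd_ge_of_mem {H : Type u} [Group H] (P : Submodule ℂ (EE H Unit))
    (hP : IsClosed (P : Set (EE H Unit))) {f : lp (fun _ : H => ℂ) 2} (hf : toU f ∈ P) :
    2 * (f 1).re - ‖f‖ ^ 2 ≤ vd P := by
  classical
  rw [vd_eq_infDist P hP]
  simp only [Finset.univ_unique, PUnit.default_eq_unit, Finset.sum_singleton]
  have h1 : Metric.infDist (dl ((1 : H), ())) (P : Set (EE H Unit))
      ≤ ‖(dl ((1 : H), ()) : EE H Unit) - toU f‖ := by
    rw [← dist_eq_norm]
    exact Metric.infDist_le_dist_of_mem hf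
  have h3 : Metric.infDist (dl ((1 : H), ())) (P : Set (EE H Unit)) ^ 2
      ≤ ‖(dl ((1 : H), ()) : EE H Unit) - toU f‖ ^ 2 :=
    pow_le_pow_left₀ Metric.infDist_nonneg h1 2
  rw [← toU_single, ← toU_sub, norm_toU, TH57.AZ.norm_sub_sq_single] at h3
  rw [← toU_single]
  linarith

open Pool.Agent.TH57.AZ in
/-- the eigenspace of `l` has at least the dimension `(dim ker (β + ∑ l_j v_j))ⁿ` -/
theorem Eig_ge {n : ℕ} (v : Fin n → (G →₀ ℂ)) (β : G →₀ ℂ) (l : Fin n → ℂ) :
    vd (LinearMap.ker (cop (β + ∑ j, l j • v j) : EE G Unit →ₗ[ℂ] EE G Unit)) ^ n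
      ≤ vd (Eig v β l) := by
  classical
  obtain ⟨u, hu, hu1, hu2⟩ := exists_proj (β + ∑ j, l j • v j)
  have hd : kd (β + ∑ j, l j • v j)
      = vd (LinearMap.ker (cop (β + ∑ j, l j • v j) : EE G Unit →ₗ[ℂ] EE G Unit)) :=
    kerDim_eq_vd _
  have hu' : cop (β + ∑ j, l j • v j) (toU u) = 0 := by
    have h1 : toU u ∈ (LinearMap.ker (cop (β + ∑ j, l j • v j) :
        EE G Unit →ₗ[ℂ] EE G Unit) : Set (EE G Unit)) := by
      rw [← toU_image_kern]
      exact ⟨u, hu, rfl⟩
    exact h1
  have hmem : toU (tp n u) ∈ Eig v β l := by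
    rw [mem_Eig]
    intro m
    exact cramer v β l u hu' m
  have h2 := vd_ge_of_mem (Eig v β l) (Eig_closed v β l) hmem
  rw [norm_sq_tp, hu2, hd] at h2
  have h3 : (tp n u) 1 = ((kd (β + ∑ j, l j • v j) ^ n : ℝ) : ℂ) := by
    rw [tp_apply]
    simp only [Pi.one_apply, hu1, Finset.prod_const, Finset.card_univ, Fintype.card_fin]
    push_cast
    rfl
  rw [h3, Complex.ofReal_re, hd] at h2
  linarith

/-- separating finitely many points by a linear functional -/
theorem exists_sep {n k : ℕ} (l : Fin k → (Fin n → ℂ)) (hl : Function.Injective l) :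
    ∃ a : Fin n → ℂ, Function.Injective fun b => ∑ m, a m * l b m := by
  classical
  -- `a m = t ^ m`
  let p : Fin k → Fin k → Polynomial ℂ := fun b b' =>
    ∑ m : Fin n, Polynomial.monomial (m : ℕ) (l b m - l b' m)
  have hp : ∀ b b', b ≠ b' → p b b' ≠ 0 := by
    intro b b' hb h0
    apply hb
    apply hl
    funext m
    have h1 : (p b b').coeff m = l b m - l b' m := by
      simp only [p]
      rw [Polynomial.finsetSum_coeff, Finset.sum_eq_single m]
      · rw [Polynomial.coeff_monomial, if_pos rfl]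
      · intro m' _ hm
        rw [Polynomial.coeff_monomial, if_neg]
        intro h; exact hm (Fin.ext h)
      · intro h; exact absurd (Finset.mem_univ m) h
    rw [h0, Polynomial.coeff_zero] at h1
    exact sub_eq_zero.1 h1.symm
  let Q : Polynomial ℂ := ∏ b, ∏ b', if b = b' then 1 else p b b'
  have hQ : Q ≠ 0 := by
    simp only [Q]
    rw [Finset.prod_ne_zero_iff]
    intro b _
    rw [Finset.prod_ne_zero_iff]
    intro b' _
    split_ifs with h
    · exact one_ne_zero
    · exact hp b b' h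
  obtain ⟨t, ht⟩ : ∃ t : ℂ, Q.eval t ≠ 0 := by
    by_contra hcon
    push Not at hcon
    exact hQ (Polynomial.funext fun x => by rw [hcon x, Polynomial.eval_zero])
  refine ⟨fun m => t ^ (m : ℕ), fun b b' hbb => ?_⟩
  by_contra hne
  apply ht
  simp only [Q]
  rw [Polynomial.eval_prod]
  apply Finset.prod_eq_zero (Finset.mem_univ b)
  rw [Polynomial.eval_prod]
  apply Finset.prod_eq_zero (Finset.mem_univ b')
  rw [if_neg hne]
  simp only [p]
  rw [Polynomial.eval_finsetSum]
  simp only [Polynomial.eval_monomial]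
  simp only at hbb
  rw [← sub_eq_zero, ← Finset.sum_sub_distrib] at hbb
  rw [← hbb]
  refine Finset.sum_congr rfl fun m _ => ?_
  ring

/-- **The Bezout inequality for `ℓ²`-kernels.** -/
theorem bezout {n k : ℕ} (v : Fin n → (G →₀ ℂ)) (β : G →₀ ℂ) (l : Fin k → (Fin n → ℂ))
    (hl : Function.Injective l) (hk : 0 < k) :
    ∑ b, vd (LinearMap.ker (cop (β + ∑ j, l b j • v j) : EE G Unit →ₗ[ℂ] EE G Unit)) ^ n
      ≤ 1 + (k - 1 : ℝ) * vd (LinearMap.ker (cop (alt v) :
        EE (Fin n → G) Unit →ₗ[ℂ] EE (Fin n → G) Unit)) := by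
  classical
  obtain ⟨a, ha⟩ := exists_sep l hl
  have h1 := sum_vd_le hk (cop (alt v)) (-∑ m, a m • cop (alt (Function.update v m β)))
    (fun b => ∑ m, a m * l b m) ha (fun b => Eig v β (l b)) (fun b => Eig_inv v β (l b))
    (fun b => Eig_closed v β (l b)) (by
      intro b F hF
      rw [mem_Eig] at hF
      have h2 : (-∑ m, a m • cop (alt (Function.update v m β)) :
          EE (Fin n → G) Unit →L[ℂ] EE (Fin n → G) Unit) F
          = -∑ m, a m • cop (alt (Function.update v m β)) F := by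
        change -((∑ m, a m • cop (alt (Function.update v m β)) :
          EE (Fin n → G) Unit →L[ℂ] EE (Fin n → G) Unit) F) = _
        rw [sum_apply]
        rfl
      rw [h2, Finset.sum_smul, ← Finset.sum_neg_distrib]
      refine Finset.sum_congr rfl fun m _ => ?_
      rw [hF m, smul_smul, mul_neg, neg_smul, neg_neg])
  refine le_trans (Finset.sum_le_sum fun b _ => Eig_ge v β (l b)) h1

end Pool.Agent.N17.BZ
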