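import Pool.Agent.N17.BZ.Cor

set_option autoImplicit false
set_option linter.unusedSectionVars false

open scoped InnerProductSpace InnerProduct ENNReal

/-! Very general planes. -/

namespace Pool.Agent.N17.BZ

open Pool.Agent.W649.ZL MvPolynomial

universe u

variable {G : Type u} [Group G]

/-- the elements with coefficients `y` on `T` -/
noncomputable def vT {n : ℕ} (T : Finset G) (y : Fin n × T → ℂ) (j : Fin n) : G →₀ ℂ :=
  ofF T (fun x => y (j, x))

/-- the alternating element of elements supported on `T` -/
theorem cop_alt_vT {n : ℕ} (T : Finset G) (y : Fin n × T → ℂ) :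
    cop (alt (vT T y)) = lin (fun x : Fin n → T => Ltr (fun i => (x i : G)))
      (fun x => (Matrix.of fun j i => y (j, x i)).det) := by
  classical
  let em : (Fin n → T) → (Fin n → G) := fun x i => (x i : G)
  have hem : Function.Injective em := by
    intro a b h
    funext i
    exact Subtype.ext (congrFun h i)
  have hsub : (alt (vT T y)).support ⊆ Finset.univ.image em := by
    intro x hx
    have h1 : ∀ i, x i ∈ T := by
      intro i
      obtain ⟨j, hj⟩ := alt_support _ x hx i
      exact ofF_support T _ hj
    rw [Finset.mem_image]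
    exact ⟨fun i => ⟨x i, h1 i⟩, Finset.mem_univ _, rfl⟩
  unfold cop
  rw [Finsupp.linearCombination_apply, Finsupp.sum_of_support_subset _ hsub _ (by simp),
    Finset.sum_image (fun a _ b _ h => hem h)]
  unfold lin
  refine Finset.sum_congr rfl fun x _ => ?_
  congr 1
  rw [alt_apply]
  congr 1
  ext j i
  exact ofF_apply T _ (x i)

/-- outside countably many hypersurfaces the alternating element is regular -/
theorem very_general {n : ℕ} (T : Finset G) (f : Fin n → T) (hf : Function.Injective f) (t : G)
    (H : Subgroup G) (hH : LI H) (hfH : ∀ j, t⁻¹ * (f j : G) ∈ H) :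
    ∃ Q : ℕ → MvPolynomial (Fin n × T) ℂ, (∀ k, Q k ≠ 0) ∧
      ∀ y : Fin n × T → ℂ, (∀ k, eval y (Q k) ≠ 0) → Function.Injective (cop (alt (vT T y))) := by
  classical
  set A : (Fin n → T) → EE (Fin n → G) Unit →L[ℂ] EE (Fin n → G) Unit :=
    fun x => Ltr (fun i => (x i : G)) with hAdef
  have hA : ∀ x, Eqv (A x) := fun x => elem_eqv _ _ _
  let pk : (Fin n × T → ℂ) → (Fin n → T) → ℂ := fun y x => (Matrix.of fun j i => y (j, x i)).det
  -- the special point
  let y0 : Fin n × T → ℂ := fun p => if p.2 = f p.1 then 1 else 0
  have hy0 : Function.Injective (cop (alt (vT T y0))) := by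
    have h1 : vT T y0 = fun j => Finsupp.single (f j : G) (1 : ℂ) := by
      funext j
      have h2 := ofF_eq T (Finsupp.single (f j : G) (1 : ℂ)) (by
        intro x hx
        have := Finsupp.support_single_subset hx
        rw [Finset.mem_singleton] at this
        rw [this]; exact (f j).2)
      rw [← h2]
      unfold vT
      congr 1
      funext x
      simp only [y0, Finsupp.single_apply]
      congr 1
      rw [eq_iff_iff]
      constructor
      · intro h; rw [h]
      · intro h; exact Subtype.ext h.symm
    rw [h1]
    apply alt_injective _ _ t H hH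
    · intro j x hx
      have := Finsupp.support_single_subset hx
      rw [Finset.mem_singleton] at this
      rw [this]; exact hfH j
    · have h3 : Function.Injective fun j => (f j : G) := fun a b h => hf (Subtype.ext h)
      exact (Finsupp.linearIndependent_single_one ℂ G).comp _ h3
  have hP : ∀ k : ℕ, ∃ P : MvPolynomial (Fin n → T) ℂ,
      (∀ p ∈ locus A (1 / ((k : ℝ) + 1)), aeval p P = 0) ∧ aeval (pk y0) P ≠ 0 := by
    intro k
    by_contra hcon
    push Not at hcon
    have h1 : pk y0 ∈ locus A (1 / ((k : ℝ) + 1)) := by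
      rw [← locus_closed A hA]
      intro P hP
      exact hcon P hP
    have h2 : 1 / ((k : ℝ) + 1)
        ≤ vd (LinearMap.ker (lin A (pk y0) : EE (Fin n → G) Unit →ₗ[ℂ] EE (Fin n → G) Unit)) := h1
    have h3 : lin A (pk y0) = cop (alt (vT T y0)) := (cop_alt_vT T y0).symm
    rw [h3, vd_ker_of_injective _ hy0] at h2
    have : (0 : ℝ) < 1 / ((k : ℝ) + 1) := by positivity
    linarith
  choose P hP1 hP2 using hP
  let pl : (Fin n → T) → MvPolynomial (Fin n × T) ℂ :=
    fun x => (Matrix.of fun j i => (X (j, x i) : MvPolynomial (Fin n × T) ℂ)).det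
  have hpl : ∀ (y : Fin n × T → ℂ) (k : ℕ), eval y (aeval pl (P k)) = aeval (pk y) (P k) := by
    intro y k
    have h1 : eval y (aeval pl (P k)) = aeval y (aeval pl (P k)) := by
      rw [aeval_ev]
    rw [h1, aeval_def pl, aeval_def (pk y), ← RingHom.coe_coe (aeval y), hom_eval₂]
    congr 1
    · ext c
      simp
    · funext x
      simp only [pl, pk, RingHom.coe_coe]
      rw [AlgHom.map_det]
      congr 1
      ext j i
      simp
  refine ⟨fun k => aeval pl (P k), fun k h0 => hP2 k ?_, fun y hy => ?_⟩
  · have h0' : aeval pl (P k) = 0 := h0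
    rw [← hpl, h0', map_zero]
  · apply injective_of_vd_eq_zero _ (cop_eqv _)
    by_contra hcon
    push Not at hcon
    obtain ⟨k, hk⟩ := exists_nat_one_div_lt hcon
    apply hy k
    rw [hpl]
    apply hP1 k
    change _ ≤ vd _
    have h3 : lin A (pk y) = cop (alt (vT T y)) := (cop_alt_vT T y).symm
    rw [h3]
    exact hk.le

end Pool.Agent.N17.BZ
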