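import Pool.Agent.N17.BZ.Cor

set_option autoImplicit false
set_option linter.unusedSectionVars false

open scoped InnerProductSpace InnerProduct ENNReal

/-! Projective points, and twists by characters. -/

namespace Pool.Agent.N17.BZ

open Pool.Agent.W649.ZL

universe u

variable {G : Type u} [Group G]

theorem kv_eq_zero_of_injective {α : G →₀ ℂ} (h : Function.Injective (cop α)) : kv α = 0 :=
  vd_ker_of_injective _ h

theorem kv_smul (c : ℂ) (hc : c ≠ 0) (α : G →₀ ℂ) : kv (c • α) = kv α := by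
  unfold kv
  congr 1
  ext F
  change cop (c • α) F = 0 ↔ cop α F = 0
  rw [map_smul]
  change c • cop α F = 0 ↔ _
  rw [smul_eq_zero, or_iff_right hc]

/-- an element supported on `z` and `F` -/
theorem decomp (F : Finset G) (z : G) (hz : z ∉ F) (α : G →₀ ℂ)
    (hα : ∀ x ∈ α.support, x = z ∨ x ∈ F) :
    α = Finsupp.single z (α z) + ∑ x : F, Finsupp.single (x : G) (α x) := by
  classical
  have h1 : α - Finsupp.single z (α z) = ofF F (fun x : F => α x) := by
    rw [← ofF_eq F (α - Finsupp.single z (α z))]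
    · congr 1
      funext x
      rw [Finsupp.sub_apply, Finsupp.single_apply, if_neg, sub_zero]
      intro h; exact hz (h ▸ x.2)
    · intro x hx
      have h2 := Finsupp.mem_support_iff.1 hx
      by_cases hxz : x = z
      · subst hxz
        simp at h2
      · rw [Finsupp.sub_apply, Finsupp.single_apply, if_neg (Ne.symm hxz), sub_zero] at h2
        exact (hα x (Finsupp.mem_support_iff.2 h2)).resolve_left hxz
  have h2 : ofF F (fun x : F => α x) = ∑ x : F, Finsupp.single (x : G) (α x) := rfl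
  rw [← h2, ← h1]
  abel

/-- **Projective version.** -/
theorem bezout_proj (F : Finset G) (hF : F.Nonempty) (z t : G) (H : Subgroup G) (hH : LI H)
    (hFH : ∀ x ∈ F, t⁻¹ * x ∈ H) (S : Finset (G →₀ ℂ))
    (hS : ∀ α ∈ S, ∀ x ∈ α.support, x = z ∨ x ∈ F) (h0 : ∀ α ∈ S, α ≠ 0)
    (hprop : ∀ α ∈ S, ∀ α' ∈ S, α ≠ α' → ∀ c : ℂ, α' ≠ c • α) :
    ∑ α ∈ S, kv α ^ F.card ≤ 1 := by
  classical
  have hn : F.card ≠ 0 := Finset.card_ne_zero.2 hF
  by_cases hz : z ∈ F
  · -- all elements are regular
    have h1 : ∀ α ∈ S, kv α ^ F.card = 0 := by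
      intro α hα
      rw [kv_eq_zero_of_injective, zero_pow hn]
      apply LI_coset_injective t H hH α _ (h0 α hα)
      intro x hx
      rcases hS α hα x hx with h | h
      · rw [h]; exact hFH z hz
      · exact hFH x h
    rw [Finset.sum_eq_zero h1]
    exact zero_le_one
  · let e : Fin F.card ≃ F := F.equivFin.symm
    let v : Fin F.card → (G →₀ ℂ) := fun j => Finsupp.single (e j : G) 1
    have hv : LinearIndependent ℂ v := by
      have h3 : Function.Injective fun j => (e j : G) :=
        fun a b h => e.injective (Subtype.ext h)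
      exact (Finsupp.linearIndependent_single_one ℂ G).comp _ h3
    have hinj : Function.Injective (cop (alt v)) := by
      apply alt_injective v hv t H hH
      intro j x hx
      have := Finsupp.support_single_subset hx
      rw [Finset.mem_singleton] at this
      rw [this]; exact hFH _ (e j).2
    -- the elements with nonzero coefficient at `z`
    let S' := S.filter (fun α => α z ≠ 0)
    have h1 : ∑ α ∈ S, kv α ^ F.card = ∑ α ∈ S', kv α ^ F.card := by
      symm
      apply Finset.sum_subset (Finset.filter_subset _ _)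
      intro α hα hα'
      have hαz : α z = 0 := by
        by_contra hne
        exact hα' (Finset.mem_filter.2 ⟨hα, hne⟩)
      rw [kv_eq_zero_of_injective, zero_pow hn]
      apply LI_coset_injective t H hH α _ (h0 α hα)
      intro x hx
      rcases hS α hα x hx with h | h
      · rw [h] at hx
        exact absurd hαz (Finsupp.mem_support_iff.1 hx)
      · exact hFH x h
    rw [h1]
    let l : (G →₀ ℂ) → (Fin F.card → ℂ) := fun α j => α (e j : G) / α z
    have hl : ∀ α ∈ S', α = (α z) • (Finsupp.single z 1 + ∑ j, l α j • v j) := by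
      intro α hα
      obtain ⟨hα1, hα2⟩ := Finset.mem_filter.1 hα
      have h2 := decomp F z hz α (hS α hα1)
      conv_lhs => rw [h2]
      rw [smul_add, Finsupp.smul_single, smul_eq_mul, mul_one, Finset.smul_sum, ← e.sum_comp]
      congr 1
      refine Finset.sum_congr rfl fun j _ => ?_
      simp only [l, v]
      rw [smul_smul, Finsupp.smul_single, smul_eq_mul, mul_one, mul_div_cancel₀ _ hα2]
    have hlinj : Set.InjOn l S' := by
      intro α hα α' hα' hll
      by_contra hne
      obtain ⟨hα1, hα2⟩ := Finset.mem_filter.1 hα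
      obtain ⟨hα1', hα2'⟩ := Finset.mem_filter.1 hα'
      apply hprop α hα1 α' hα1' hne (α' z / α z)
      have h2 := hl α hα
      have h3 := hl α' hα'
      rw [← hll] at h3
      calc α' = (α' z) • (Finsupp.single z 1 + ∑ j, l α j • v j) := h3
        _ = (α' z / α z) • ((α z) • (Finsupp.single z 1 + ∑ j, l α j • v j)) := by
          rw [smul_smul, div_mul_cancel₀ _ hα2]
        _ = (α' z / α z) • α := by rw [← h2]
    have h2 := bezout_of_injective v hinj (Finsupp.single z 1) (S'.image l)
    rw [Finset.sum_image hlinj] at h2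
    refine le_trans (le_of_eq ?_) h2
    refine Finset.sum_congr rfl fun α hα => ?_
    congr 1
    conv_lhs => rw [hl α hα]
    exact kv_smul _ (Finset.mem_filter.1 hα).2 _

/-- twist by a character -/
noncomputable def twist (χ : G →* Circle) (α : G →₀ ℂ) : G →₀ ℂ :=
  Finsupp.onFinset α.support (fun x => (χ x : ℂ) * α x) (by
    intro x hx
    rw [Finsupp.mem_support_iff]
    intro h
    apply hx
    rw [h, mul_zero])

theorem twist_apply (χ : G →* Circle) (α : G →₀ ℂ) (x : G) :
    twist χ α x = (χ x : ℂ) * α x := rfl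

theorem twist_support (χ : G →* Circle) (α : G →₀ ℂ) : (twist χ α).support = α.support := by
  ext x
  rw [Finsupp.mem_support_iff, Finsupp.mem_support_iff, twist_apply]
  simp

theorem memlp_mulchar (χ : G →* Circle) (f : EE G Unit) :
    Memℓp (fun x : G × Unit => (χ x.1 : ℂ) * f x) 2 := by
  rw [memlp_two_iff]
  have h := (memlp_two_iff _).1 f.2
  convert h using 1
  ext x
  rw [norm_mul, Circle.norm_coe, one_mul]

/-- multiplication by a character -/
noncomputable def mulchar (χ : G →* Circle) (f : EE G Unit) : EE G Unit :=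
  ⟨fun x => (χ x.1 : ℂ) * f x, memlp_mulchar χ f⟩

theorem mulchar_apply (χ : G →* Circle) (f : EE G Unit) (x : G) :
    mulchar χ f (x, ()) = (χ x : ℂ) * f (x, ()) := rfl

theorem isometry_mulchar (χ : G →* Circle) : Isometry (mulchar χ) := by
  apply Isometry.of_dist_eq
  intro f g
  rw [dist_eq_norm, dist_eq_norm]
  have e1 : mulchar χ f - mulchar χ g = mulchar χ (f - g) := by
    ext ⟨x, ⟨⟩⟩
    change (χ x : ℂ) * f (x, ()) - (χ x : ℂ) * g (x, ()) = (χ x : ℂ) * (f - g) (x, ())
    rw [← mul_sub]; rfl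
  rw [e1]
  have e2 : ‖mulchar χ (f - g)‖ ^ 2 = ‖f - g‖ ^ 2 := by
    rw [norm_sq_tsum, norm_sq_tsum]
    refine tsum_congr fun x => ?_
    change ‖(χ x.1 : ℂ) * (f - g) x‖ ^ 2 = _
    rw [norm_mul, Circle.norm_coe, one_mul]
  exact (sq_eq_sq₀ (norm_nonneg _) (norm_nonneg _)).1 e2

theorem mulchar_dl (χ : G →* Circle) : mulchar χ (dl ((1 : G), ())) = dl ((1 : G), ()) := by
  ext ⟨x, ⟨⟩⟩
  rw [mulchar_apply]
  by_cases hx : x = 1
  · subst hx; rw [map_one, Circle.coe_one, one_mul]
  · rw [dl_apply_ne, mul_zero]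
    intro h; exact hx (congrArg Prod.fst h)

theorem cop_twist (χ : G →* Circle) (α : G →₀ ℂ) (f : EE G Unit) :
    cop (twist χ α) (mulchar χ f) = mulchar χ (cop α f) := by
  ext ⟨x, ⟨⟩⟩
  rw [mulchar_apply, cop_apply, cop_apply, twist_support, Finset.mul_sum]
  refine Finset.sum_congr rfl fun k _ => ?_
  rw [twist_apply, mulchar_apply]
  have h1 : (χ x : ℂ) = (χ k : ℂ) * (χ (k⁻¹ * x) : ℂ) := by
    rw [← Circle.coe_mul, ← map_mul, mul_inv_cancel_left]
  rw [h1]
  ring

theorem kv_twist (χ : G →* Circle) (α : G →₀ ℂ) : kv (twist χ α) = kv α := by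
  unfold kv
  rw [vd_eq_infDist _ (ContinuousLinearMap.isClosed_ker _),
    vd_eq_infDist _ (ContinuousLinearMap.isClosed_ker _)]
  have himg : mulchar χ '' (LinearMap.ker (cop α : EE G Unit →ₗ[ℂ] EE G Unit) : Set (EE G Unit))
      = (LinearMap.ker (cop (twist χ α) : EE G Unit →ₗ[ℂ] EE G Unit) : Set (EE G Unit)) := by
    have hzero : ∀ f : EE G Unit, mulchar χ f = 0 ↔ f = 0 := by
      intro f
      constructor
      · intro h
        ext ⟨x, ⟨⟩⟩
        have h1 := congrArg (fun F : EE G Unit => F (x, ())) h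
        have h2 : (χ x : ℂ) * f (x, ()) = 0 := h1
        exact (mul_eq_zero.1 h2).resolve_left (Circle.coe_ne_zero _)
      · intro h
        rw [h]
        ext ⟨x, ⟨⟩⟩
        exact mul_zero _
    ext F
    constructor
    · rintro ⟨f, hf, rfl⟩
      change cop (twist χ α) (mulchar χ f) = 0
      have hf' : cop α f = 0 := hf
      rw [cop_twist, hf', (hzero 0).2 rfl]
    · intro hF
      have hback : mulchar χ (mulchar χ⁻¹ F) = F := by
        ext ⟨x, ⟨⟩⟩
        rw [mulchar_apply, mulchar_apply, ← mul_assoc, ← Circle.coe_mul, MonoidHom.inv_apply,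
          mul_inv_cancel, Circle.coe_one, one_mul]
      refine ⟨mulchar χ⁻¹ F, ?_, hback⟩
      change cop α (mulchar χ⁻¹ F) = 0
      rw [← hzero, ← cop_twist, hback]
      exact hF
  refine Finset.sum_congr rfl fun j _ => ?_
  obtain ⟨⟩ := j
  rw [← himg]
  conv_lhs => rw [← mulchar_dl χ]
  rw [Metric.infDist_image (isometry_mulchar χ)]

/-- **Orbits under characters.** -/
theorem bezout_char (F : Finset G) (hF : F.Nonempty) (z t : G) (H : Subgroup G) (hH : LI H)
    (hFH : ∀ x ∈ F, t⁻¹ * x ∈ H) (α : G →₀ ℂ) (hα : ∀ x ∈ α.support, x = z ∨ x ∈ F)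
    (h0 : α ≠ 0) (C : Finset (G →* Circle))
    (hC : ∀ χ ∈ C, ∀ ψ ∈ C, χ ≠ ψ → ∃ x ∈ α.support, ∃ y ∈ α.support,
      χ (x⁻¹ * y) ≠ ψ (x⁻¹ * y)) : C.card * kv α ^ F.card ≤ 1 := by
  classical
  have hkey : ∀ χ ∈ C, ∀ ψ ∈ C, χ ≠ ψ → ∀ c : ℂ, twist ψ α ≠ c • twist χ α := by
    intro χ hχ ψ hψ hne c hc
    obtain ⟨x, hx, y, hy, hxy⟩ := hC χ hχ ψ hψ hne
    apply hxy
    have h1 : ∀ x ∈ α.support, (ψ x : ℂ) = c * (χ x : ℂ) := by
      intro x hx
      have h2 := congrArg (fun β : G →₀ ℂ => β x) hc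
      simp only [Finsupp.smul_apply, twist_apply, smul_eq_mul] at h2
      exact mul_right_cancel₀ (Finsupp.mem_support_iff.1 hx) (by rw [h2]; ring)
    have hc0 : c ≠ 0 := by
      intro h
      have := h1 x hx
      rw [h, zero_mul] at this
      exact Circle.coe_ne_zero _ this
    have hχ0 : (χ x : ℂ) ≠ 0 := Circle.coe_ne_zero _
    rw [map_mul, map_mul, map_inv, map_inv]
    ext
    rw [Circle.coe_mul, Circle.coe_mul, Circle.coe_inv, Circle.coe_inv, h1 x hx, h1 y hy]
    field_simp
  have hinj : Set.InjOn (fun χ => twist χ α) (C : Set (G →* Circle)) := by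
    intro χ hχ ψ hψ h
    by_contra hne
    apply hkey χ hχ ψ hψ hne 1
    rw [one_smul]
    exact h.symm
  have h1 := bezout_proj F hF z t H hH hFH (C.image (fun χ => twist χ α)) (by
      intro β hβ x hx
      obtain ⟨χ, _, rfl⟩ := Finset.mem_image.1 hβ
      rw [twist_support] at hx
      exact hα x hx) (by
      intro β hβ hβ0
      obtain ⟨χ, _, rfl⟩ := Finset.mem_image.1 hβ
      apply h0
      have := twist_support χ α
      simp only [hβ0, Finsupp.support_zero] at this
      exact Finsupp.support_eq_empty.1 this.symm) (by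
      intro β hβ β' hβ' hne
      obtain ⟨χ, hχ, rfl⟩ := Finset.mem_image.1 hβ
      obtain ⟨ψ, hψ, rfl⟩ := Finset.mem_image.1 hβ'
      exact hkey χ hχ ψ hψ (fun h => hne (by rw [h])))
  rw [Finset.sum_image hinj] at h1
  simp only [kv_twist, Finset.sum_const, nsmul_eq_mul] at h1
  exact h1

/-- three group elements, two of which generate an infinite cyclic group -/
theorem bezout_three (x y z : G) (hxy : ¬ IsOfFinOrder (x⁻¹ * y)) (S : Finset (G →₀ ℂ))
    (hS : ∀ α ∈ S, ∀ g ∈ α.support, g = x ∨ g = y ∨ g = z) (h0 : ∀ α ∈ S, α ≠ 0)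
    (hprop : ∀ α ∈ S, ∀ α' ∈ S, α ≠ α' → ∀ c : ℂ, α' ≠ c • α) :
    ∑ α ∈ S, kv α ^ 2 ≤ 1 := by
  classical
  have hne : x ≠ y := by
    intro h
    apply hxy
    rw [h, inv_mul_cancel]
    exact IsOfFinOrder.one
  have hcard : ({x, y} : Finset G).card = 2 := Finset.card_pair hne
  have h1 := bezout_proj {x, y} ⟨x, Finset.mem_insert_self _ _⟩ z x (Subgroup.zpowers (x⁻¹ * y))
    (LI_zpowers hxy) (by
      intro g hg
      rw [Finset.mem_insert, Finset.mem_singleton] at hg
      rcases hg with rfl | rfl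
      · rw [inv_mul_cancel]; exact Subgroup.one_mem _
      · exact Subgroup.mem_zpowers _) S (by
      intro α hα g hg
      rw [Finset.mem_insert, Finset.mem_singleton]
      rcases hS α hα g hg with h | h | h
      · exact Or.inr (Or.inl h)
      · exact Or.inr (Or.inr h)
      · exact Or.inl h) h0 hprop
  rwa [hcard] at h1

theorem char_three (x y z : G) (hxy : ¬ IsOfFinOrder (x⁻¹ * y)) (α : G →₀ ℂ)
    (hα : ∀ g ∈ α.support, g = x ∨ g = y ∨ g = z) (h0 : α ≠ 0) (C : Finset (G →* Circle))
    (hC : ∀ χ ∈ C, ∀ ψ ∈ C, χ ≠ ψ → ∃ x ∈ α.support, ∃ y ∈ α.support,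
      χ (x⁻¹ * y) ≠ ψ (x⁻¹ * y)) : C.card * kv α ^ 2 ≤ 1 := by
  classical
  have hne : x ≠ y := by
    intro h
    apply hxy
    rw [h, inv_mul_cancel]
    exact IsOfFinOrder.one
  have hcard : ({x, y} : Finset G).card = 2 := Finset.card_pair hne
  have h1 := bezout_char {x, y} ⟨x, Finset.mem_insert_self _ _⟩ z x (Subgroup.zpowers (x⁻¹ * y))
    (LI_zpowers hxy) (by
      intro g hg
      rw [Finset.mem_insert, Finset.mem_singleton] at hg
      rcases hg with rfl | rfl
      · rw [inv_mul_cancel]; exact Subgroup.one_mem _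
      · exact Subgroup.mem_zpowers _) α (by
      intro g hg
      rw [Finset.mem_insert, Finset.mem_singleton]
      rcases hα g hg with h | h | h
      · exact Or.inr (Or.inl h)
      · exact Or.inr (Or.inr h)
      · exact Or.inl h) h0 C hC
  rwa [hcard] at h1

end Pool.Agent.N17.BZ
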