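import Pool.Agent.W649.ZL.Fam

set_option autoImplicit false
set_option linter.unusedSectionVars false

open scoped InnerProductSpace InnerProduct ENNReal

/-! Eigenspaces of a pair of equivariant operators: the sum of their dimensions. -/

namespace Pool.Agent.N17.BZ

open Pool.Agent.W649.ZL

universe u

variable {G : Type u} [Group G]

/-- the direct sum of finitely many subspaces -/
noncomputable def dsum {k : ℕ} (E : Fin k → Submodule ℂ (EE G Unit)) :
    Submodule ℂ (EE G (Fin k × Unit)) where
  carrier := {F | ∀ b, coord b F ∈ E b}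
  zero_mem' := fun b => by rw [map_zero]; exact (E b).zero_mem
  add_mem' := fun {x y} hx hy b => by
    rw [map_add]; exact (E b).add_mem (hx b) (hy b)
  smul_mem' := fun c x hx b => by
    rw [map_smul]; exact (E b).smul_mem c (hx b)

theorem mem_dsum {k : ℕ} {E : Fin k → Submodule ℂ (EE G Unit)} {F : EE G (Fin k × Unit)} :
    F ∈ dsum E ↔ ∀ b, coord b F ∈ E b := Iff.rfl

theorem dsum_inv {k : ℕ} {E : Fin k → Submodule ℂ (EE G Unit)} (h : ∀ b, W649.ZL.Inv (E b)) :
    W649.ZL.Inv (dsum E) := by
  intro g F hF b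
  rw [coord_tr]
  exact h b g _ (hF b)

theorem dsum_closed {k : ℕ} {E : Fin k → Submodule ℂ (EE G Unit)}
    (h : ∀ b, IsClosed (E b : Set (EE G Unit))) :
    IsClosed (dsum E : Set (EE G (Fin k × Unit))) := by
  have e : (dsum E : Set (EE G (Fin k × Unit))) = ⋂ b, (coord b) ⁻¹' (E b : Set (EE G Unit)) := by
    ext F
    simp only [SetLike.mem_coe, mem_dsum, Set.mem_iInter, Set.mem_preimage]
  rw [e]
  exact isClosed_iInter fun b => (h b).preimage (coord b).continuous

theorem coord_elem {k : ℕ} (b b' : Fin k) (h : EE G Unit) :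
    coord b' (elem (I := Fin k × Unit) (1 : G) (b, ()) () h) = if b' = b then h else 0 := by
  ext ⟨x, ⟨⟩⟩
  rw [coord_apply, elem_apply]
  by_cases hb : b' = b
  · subst hb; simp
  · simp [hb]

theorem vd_dsum {k : ℕ} {E : Fin k → Submodule ℂ (EE G Unit)} (hI : ∀ b, W649.ZL.Inv (E b))
    (hc : ∀ b, IsClosed (E b : Set (EE G Unit))) : ∑ b, vd (E b) ≤ vd (dsum E) := by
  classical
  have key : ∀ m : ℕ, m ≤ k → ∃ W : Submodule ℂ (EE G (Fin k × Unit)), W649.ZL.Inv W ∧
      IsClosed (W : Set (EE G (Fin k × Unit))) ∧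
      (∀ f, f ∈ W ↔ f ∈ dsum E ∧ ∀ b : Fin k, b.1 < m → coord b f = 0) ∧
      ∑ b : Fin k, (if b.1 < m then vd (E b) else 0) + vd W ≤ vd (dsum E) := by
    intro m
    induction m with
    | zero => intro _; exact ⟨dsum E, dsum_inv hI, dsum_closed hc, by simp, by simp⟩
    | succ m ih =>
      intro hm
      obtain ⟨W, h1, h2, h3, h4⟩ := ih (by omega)
      let b : Fin k := ⟨m, by omega⟩
      refine ⟨W ⊓ LinearMap.ker ((coord b : EE G (Fin k × Unit) →L[ℂ] EE G Unit) :
        EE G (Fin k × Unit) →ₗ[ℂ] EE G Unit), ?_, ?_, ?_, ?_⟩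
      · exact inv_inf h1 (inv_ker _ (coord_tr b))
      · rw [Submodule.coe_inf]
        exact h2.inter (ContinuousLinearMap.isClosed_ker (coord b))
      · intro f
        rw [Submodule.mem_inf, h3]
        constructor
        · rintro ⟨⟨a1, a2⟩, a3⟩
          refine ⟨a1, fun b' hb' => ?_⟩
          rcases Nat.lt_succ_iff_lt_or_eq.1 hb' with hb' | hb'
          · exact a2 b' hb'
          · have : b' = b := Fin.ext hb'
            rw [this]; exact a3
        · rintro ⟨a1, a2⟩
          exact ⟨⟨a1, fun b' hb' => a2 b' (by omega)⟩, a2 b (Nat.lt_succ_self m)⟩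
      · have h5 := rank_nullity (coord (J := Unit) b) (coord_tr b) h1 h2
        have h6 : vd (E b) ≤ vd (W.map ((coord b : EE G (Fin k × Unit) →L[ℂ] EE G Unit) :
            EE G (Fin k × Unit) →ₗ[ℂ] EE G Unit)) := by
          apply vd_mono
          intro y hy
          refine ⟨elem (I := Fin k × Unit) (1 : G) (b, ()) () y, ?_, ?_⟩
          · refine (h3 _).2 ⟨fun b' => ?_, fun b' hb' => ?_⟩
            · rw [coord_elem]
              by_cases hb : b' = b
              · subst hb; simpa using hy
              · rw [if_neg hb]; exact (E b').zero_mem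
            · rw [coord_elem, if_neg]
              intro hb
              rw [hb] at hb'
              exact lt_irrefl _ hb'
          · change coord b _ = y
            rw [coord_elem, if_pos rfl]
        have h7 : ∑ b' : Fin k, (if b'.1 < m + 1 then vd (E b') else 0)
            = ∑ b' : Fin k, (if b'.1 < m then vd (E b') else 0) + vd (E b) := by
          have : ∀ b' : Fin k, (if b'.1 < m + 1 then vd (E b') else 0)
              = (if b'.1 < m then vd (E b') else 0) + (if b' = b then vd (E b') else 0) := by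
            intro b'
            rcases lt_trichotomy b'.1 m with h | h | h
            · have hne : b' ≠ b := fun hh => by rw [hh] at h; exact lt_irrefl _ h
              rw [if_pos (by omega), if_pos h, if_neg hne, add_zero]
            · have he : b' = b := Fin.ext h
              rw [if_pos (by omega), if_neg (by omega), if_pos he, zero_add]
            · have hne : b' ≠ b := fun hh => by rw [hh] at h; exact lt_irrefl _ h
              rw [if_neg (by omega), if_neg (by omega), if_neg hne, add_zero]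
          rw [Finset.sum_congr rfl fun b' _ => this b', Finset.sum_add_distrib,
            Finset.sum_ite_eq' Finset.univ b (fun b' => vd (E b')), if_pos (Finset.mem_univ b)]
        rw [h7]
        linarith
  obtain ⟨W, -, -, -, h4⟩ := key k le_rfl
  have h5 : ∑ b : Fin k, (if b.1 < k then vd (E b) else 0) = ∑ b, vd (E b) :=
    Finset.sum_congr rfl fun b _ => if_pos b.2
  rw [h5] at h4
  have := vd_nonneg W
  linarith

/-- the operator `F ↦ ∑ cᵇ^j F_b` -/
noncomputable def Sg {k : ℕ} (c : Fin k → ℂ) (j : ℕ) : EE G (Fin k × Unit) →L[ℂ] EE G Unit :=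
  ∑ b, (c b ^ j) • coord b

theorem Sg_apply {k : ℕ} (c : Fin k → ℂ) (j : ℕ) (F : EE G (Fin k × Unit)) :
    Sg c j F = ∑ b, (c b ^ j) • coord b F := by
  unfold Sg
  rw [sum_apply]
  rfl

theorem Sg_eqv {k : ℕ} (c : Fin k → ℂ) (j : ℕ) : Eqv (Sg (G := G) c j) := by
  intro g F
  rw [Sg_apply, Sg_apply, tr_sum]
  refine Finset.sum_congr rfl fun b _ => ?_
  rw [tr_smul, coord_tr]

theorem eq_zero_of_Sg {k : ℕ} (c : Fin k → ℂ) (hc : Function.Injective c)
    (F : EE G (Fin k × Unit)) (h : ∀ j < k, Sg c j F = 0) : F = 0 := by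
  apply eq_zero_of_coord
  intro b
  ext ⟨x, ⟨⟩⟩
  have h1 : (fun b => coord b F (x, ())) = 0 := by
    apply Matrix.eq_zero_of_forall_pow_sum_mul_pow_eq_zero hc
    intro i
    have h2 := congrArg (fun f : EE G Unit => f (x, ())) (h i i.2)
    simp only at h2
    rw [Sg_apply, sum_apply_EE] at h2
    rw [← show ((0 : EE G Unit) : G × Unit → ℂ) (x, ()) = 0 from rfl, ← h2]
    refine Finset.sum_congr rfl fun b _ => ?_
    rw [mul_comm]
    rfl
  exact congrFun h1 b

/-- **The dimensions of the eigenspaces of a pair of operators.** -/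
theorem sum_vd_le {k : ℕ} (hk : 0 < k) (A B : EE G Unit →L[ℂ] EE G Unit) (c : Fin k → ℂ)
    (hc : Function.Injective c) (E : Fin k → Submodule ℂ (EE G Unit)) (hI : ∀ b, W649.ZL.Inv (E b))
    (hcl : ∀ b, IsClosed (E b : Set (EE G Unit)))
    (h : ∀ b, ∀ F ∈ E b, B F = c b • A F) :
    ∑ b, vd (E b) ≤ 1 + (k - 1 : ℝ) * vd (LinearMap.ker (A : EE G Unit →ₗ[ℂ] EE G Unit)) := by
  classical
  set ν := vd (LinearMap.ker (A : EE G Unit →ₗ[ℂ] EE G Unit)) with hν
  have key : ∀ m : ℕ, ∃ W : Submodule ℂ (EE G (Fin k × Unit)), W649.ZL.Inv W ∧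
      IsClosed (W : Set (EE G (Fin k × Unit))) ∧
      (∀ f, f ∈ W ↔ f ∈ dsum E ∧ ∀ j < m + 1, Sg c j f = 0) ∧
      vd (dsum E) ≤ 1 + m * ν + vd W := by
    intro m
    induction m with
    | zero =>
      refine ⟨dsum E ⊓ LinearMap.ker ((Sg c 0 : EE G (Fin k × Unit) →L[ℂ] EE G Unit) :
        EE G (Fin k × Unit) →ₗ[ℂ] EE G Unit), ?_, ?_, ?_, ?_⟩
      · exact inv_inf (dsum_inv hI) (inv_ker _ (Sg_eqv c 0))
      · rw [Submodule.coe_inf]
        exact (dsum_closed hcl).inter (ContinuousLinearMap.isClosed_ker _)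
      · intro f
        rw [Submodule.mem_inf]
        constructor
        · rintro ⟨a1, a2⟩
          refine ⟨a1, fun j hj => ?_⟩
          have : j = 0 := by omega
          rw [this]; exact a2
        · rintro ⟨a1, a2⟩
          exact ⟨a1, a2 0 (by omega)⟩
      · have h5 := rank_nullity (Sg c 0) (Sg_eqv c 0) (dsum_inv hI) (dsum_closed hcl)
        have h6 : vd ((dsum E).map ((Sg c 0 : EE G (Fin k × Unit) →L[ℂ] EE G Unit) :
            EE G (Fin k × Unit) →ₗ[ℂ] EE G Unit)) ≤ 1 := by
          have := vd_le_card (G := G) ((dsum E).map ((Sg c 0 : EE G (Fin k × Unit) →L[ℂ] EE G Unit) :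
            EE G (Fin k × Unit) →ₗ[ℂ] EE G Unit))
          simpa using this
        push_cast
        linarith
    | succ m ih =>
      obtain ⟨W, h1, h2, h3, h4⟩ := ih
      refine ⟨W ⊓ LinearMap.ker ((Sg c (m + 1) : EE G (Fin k × Unit) →L[ℂ] EE G Unit) :
        EE G (Fin k × Unit) →ₗ[ℂ] EE G Unit), ?_, ?_, ?_, ?_⟩
      · exact inv_inf h1 (inv_ker _ (Sg_eqv c _))
      · rw [Submodule.coe_inf]
        exact h2.inter (ContinuousLinearMap.isClosed_ker _)
      · intro f
        rw [Submodule.mem_inf, h3]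
        constructor
        · rintro ⟨⟨a1, a2⟩, a3⟩
          refine ⟨a1, fun j hj => ?_⟩
          rcases Nat.lt_succ_iff_lt_or_eq.1 hj with hj | hj
          · exact a2 j hj
          · rw [hj]; exact a3
        · rintro ⟨a1, a2⟩
          exact ⟨⟨a1, fun j hj => a2 j (by omega)⟩, a2 (m + 1) (by omega)⟩
      · have h5 := rank_nullity (Sg c (m + 1)) (Sg_eqv c _) h1 h2
        have h6 : vd (W.map ((Sg c (m + 1) : EE G (Fin k × Unit) →L[ℂ] EE G Unit) :
            EE G (Fin k × Unit) →ₗ[ℂ] EE G Unit)) ≤ ν := by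
          apply vd_mono
          rintro y ⟨f, hf, rfl⟩
          change A (Sg c (m + 1) f) = 0
          obtain ⟨a1, a2⟩ := (h3 f).1 hf
          have h7 := a2 m (by omega)
          have h8 : B (Sg c m f) = A (Sg c (m + 1) f) := by
            rw [Sg_apply, Sg_apply, map_sum, map_sum]
            refine Finset.sum_congr rfl fun b _ => ?_
            rw [map_smul, map_smul, h b _ (a1 b), smul_smul, pow_succ]
          rw [← h8, h7, map_zero]
        push_cast
        linarith
  obtain ⟨W, -, -, h3, h4⟩ := key (k - 1)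
  have hW : W = ⊥ := by
    rw [eq_bot_iff]
    intro f hf
    exact eq_zero_of_Sg c hc f (fun j hj => ((h3 f).1 hf).2 j (by omega))
  rw [hW, vd_bot, add_zero, Nat.cast_sub hk] at h4
  push_cast at h4
  exact (vd_dsum hI hcl).trans h4

end Pool.Agent.N17.BZ
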